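import Pool.Agent.H10.PW1

/-! Every finitely generated group has finite palindromic width for some generating set. -/

namespace Pool.Agent.Results.MP_738270_al.Yes

/-- The value of a word in the letters `X` and their formal inverses. -/
def val {G : Type} [Group G] {X : Finset G} (w : List (X × Bool)) : G :=
  (w.map fun l => cond l.2 (l.1 : G) (l.1 : G)⁻¹).prod

/-- Elements represented by a palindrome over `X`. -/
def IsPal {G : Type} [Group G] (X : Finset G) (g : G) : Prop :=
  ∃ w : List (X × Bool), w.reverse = w ∧ val w = g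

theorem val_append {G : Type} [Group G] {X : Finset G} (u v : List (X × Bool)) :
    val (u ++ v) = val u * val v := by simp [val]

theorem val_inv {G : Type} [Group G] {X : Finset G} : ∀ u : List (X × Bool),
    val (u.map fun l => (l.1, !l.2)).reverse = (val u)⁻¹
  | [] => by simp [val]
  | (a, b) :: u => by
    rw [List.map_cons, List.reverse_cons, val_append, val_inv u]
    cases b <;> simp [val]

open Pool.Agent.H10.PW Subgroup in
open scoped commutatorElement in
theorem result (G : Type) [Group G] [Group.FG G] :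
    ∃ X : Finset G, Subgroup.closure (X : Set G) = ⊤ ∧ ∃ N : ℕ, ∀ g : G,
      ∃ l : List G, l.length ≤ N ∧ (∀ p ∈ l, IsPal X p) ∧ l.prod = g := by
  classical
  obtain ⟨S, hS⟩ := Group.fg_def.1 ‹_›
  let X : Finset G := S ∪ (S ×ˢ S).image fun a => a.1 * a.2
  have h1 : ∀ a ∈ S, a ∈ X := fun a ha => Finset.mem_union_left _ ha
  have h2 : ∀ a ∈ S, ∀ b ∈ S, a * b ∈ X := fun a ha b hb => Finset.mem_union_right _
    (Finset.mem_image.2 ⟨(a, b), Finset.mem_product.2 ⟨ha, hb⟩, rfl⟩)
  let n := S.card
  let x : Fin n → G := fun i => S.equivFin.symm i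
  have hxS : ∀ i, x i ∈ S := fun i => (S.equivFin.symm i).2
  have hx : closure (Set.range x) = ⊤ := top_le_iff.1 (hS.ge.trans (closure_mono fun a ha =>
    ⟨S.equivFin ⟨a, ha⟩, by simp [x]⟩))
  let K : Subgroup G :=
    { carrier := {g | ∃ w : List (X × Bool), val w = 1 ∧ val w.reverse = g}
      one_mem' := ⟨[], rfl, rfl⟩
      mul_mem' := by
        rintro _ _ ⟨u, h3, rfl⟩ ⟨v, h4, rfl⟩
        exact ⟨v ++ u, by rw [val_append, h3, h4, one_mul], by rw [List.reverse_append, val_append]⟩
      inv_mem' := by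
        rintro _ ⟨u, h3, rfl⟩
        refine ⟨(u.map fun l => (l.1, !l.2)).reverse, by rw [val_inv, h3, inv_one], ?_⟩
        rw [← val_inv, List.map_reverse] }
  have hw : ∀ g : G, ∃ v : List (X × Bool), val v = g := by
    intro g
    have hg : g ∈ closure (S : Set G) := hS ▸ mem_top g
    induction hg using closure_induction with
    | mem a ha => exact ⟨[(⟨a, h1 a ha⟩, true)], by simp [val]⟩
    | one => exact ⟨[], rfl⟩
    | mul a b _ _ ha hb =>
      obtain ⟨u, rfl⟩ := ha
      obtain ⟨v, rfl⟩ := hb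
      exact ⟨u ++ v, val_append u v⟩
    | inv a _ ha =>
      obtain ⟨u, rfl⟩ := ha
      exact ⟨_, val_inv u⟩
  have : K.Normal := ⟨by
    rintro _ ⟨u, h3, rfl⟩ g
    obtain ⟨v, rfl⟩ := hw g
    refine ⟨(v.map fun l => (l.1, !l.2)) ++ u ++ v.reverse, ?_, ?_⟩
    · have := val_inv v.reverse
      rw [List.map_reverse, List.reverse_reverse] at this
      rw [val_append, val_append, h3, this]; simp
    · rw [List.reverse_append, List.reverse_append, List.reverse_reverse, val_append, val_append,
        val_inv, mul_assoc]⟩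
  have hK := comm_le x hx K fun i j =>
    ⟨[(⟨_, h2 _ (hxS j) _ (hxS i)⟩, false), (⟨_, h1 _ (hxS j)⟩, true), (⟨_, h1 _ (hxS i)⟩, true)],
      by simp [val], by simp [val, commutatorElement_def, mul_assoc]⟩
  have hz : ∀ (i : Fin n) (k : ℤ), IsPal X (x i ^ k) := by
    intro i k
    obtain ⟨m, rfl | rfl⟩ := Int.eq_nat_or_neg k
    · exact ⟨List.replicate m (⟨_, h1 _ (hxS i)⟩, true), by simp, by simp [val]⟩
    · exact ⟨List.replicate m (⟨_, h1 _ (hxS i)⟩, false), by simp, by simp [val]⟩
  refine ⟨X, top_le_iff.1 (hS.ge.trans (closure_mono fun a ha => h1 a ha)), n + 1, fun g => ?_⟩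
  have h3 : closure (Set.range fun i => Abelianization.of (x i)) = ⊤ :=
    map_gen Abelianization.of QuotientGroup.mk_surjective hx (by
      rintro _ ⟨_, ⟨i, rfl⟩, rfl⟩; exact ⟨i, rfl⟩)
  obtain ⟨k, hk⟩ := mem_closure_range_iff_of_fintype.1 (h3.ge (mem_top (Abelianization.of g)))
  have h4 : (List.ofFn fun i => x i ^ k i).prod⁻¹ * g ∈ commutator G := by
    refine QuotientGroup.eq.1 ?_
    change Abelianization.of _ = Abelianization.of _
    rw [hk, map_list_prod, List.map_ofFn, List.prod_ofFn]
    simp only [Function.comp, map_zpow]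
  obtain ⟨w, h5, h6⟩ := hK h4
  refine ⟨(List.ofFn fun i => x i ^ k i) ++ [val (w ++ w.reverse)], by simp, fun p hp => ?_, ?_⟩
  · rcases List.mem_append.1 hp with hp | hp
    · obtain ⟨i, rfl⟩ := List.mem_ofFn.1 hp
      exact hz _ _
    · exact ⟨w ++ w.reverse, by simp, (List.mem_singleton.1 hp).symm⟩
  · rw [List.prod_append, List.prod_singleton, val_append, h5, h6]; group

end Pool.Agent.Results.MP_738270_al.Yes
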